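import Pool.Agent.Helper95.LN.Stmts
import Pool.Agent.Helper82.PN.PGB
import Pool.Agent.Helper33.PM.Com

/-!
# LN, row TBL: linear bound of the kinetic energy
-/

set_option autoImplicit false

namespace Pool.Agent.Helper21.LN

open MeasureTheory Filter Pool.Agent.Helper95.PW Pool.Agent.Helper95.LN

theorem tbl_near {M : ℕ} (X : Fin M → R3) (d t : ℝ) (hd : 0 < d) (ht : 0 < t) (hS : Sep X d)
    (y : R3) : near1 X d y ≤ t * near2 X d y + 1 / (4 * t) := by
  rw [← Pool.Agent.Helper82.PN.pgb_near X d hd hS y]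
  have h1 : 0 ≤ (2 * t * near1 X d y - 1) ^ 2 := sq_nonneg _
  have h2 : t * near1 X d y ^ 2 + 1 / (4 * t) - near1 X d y =
      (2 * t * near1 X d y - 1) ^ 2 / (4 * t) := by
    field_simp
    ring
  have h3 : 0 ≤ (2 * t * near1 X d y - 1) ^ 2 / (4 * t) := div_nonneg h1 (by positivity)
  linarith

theorem tbl_cb : 0 ≤ cb := by
  unfold cb
  exact intervalIntegral.integral_nonneg (by norm_num) fun u _ => sq_nonneg _

theorem tbl_kap : 0 ≤ kap := by
  unfold kap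
  refine integral_nonneg fun y => ?_
  show 0 ≤ et 1 y
  unfold et
  have h1 : 0 ≤ nr y ^ 4 := pow_nonneg (Real.sqrt_nonneg _) 4
  exact div_nonneg (mul_nonneg zero_le_one (sq_nonneg _)) (mul_nonneg tbl_cb h1)

theorem tbl_Dn {n M : ℕ} (b : ℝ) (X : Fin M → R3) (Z : Fin M → ℝ) (x : Cf n) :
    0 ≤ Dn b X Z x := by
  unfold Dn
  refine mul_nonneg (div_nonneg zero_le_one tbl_kap) ?_
  exact integral_nonneg fun w => Finset.sum_nonneg fun i _ => sq_nonneg _

theorem tbl_Rem (hK : ST_KK) {n M : ℕ} (b : ℝ) (hb : 0 < b) (X : Fin M → R3) (x : Cf n)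
    (hx : Dist X x) : 0 ≤ Rem b x := by
  unfold Rem
  refine Finset.sum_nonneg fun k _ => Finset.sum_nonneg fun l _ => ?_
  split_ifs with h
  · have h1 := (hK b (x k - x l) hb).2.1 (hx.1 k l h.ne)
    linarith
  · exact le_rfl

/-- the pointwise bound -/
theorem tbl_pt (h1 : ST_ES1) (hK : ST_KK) : ∀ z d : ℝ, 0 ≤ z → 0 < d → ∃ C : ℝ, 0 < C ∧
    ∀ (n M : ℕ) (X : Fin M → R3) (Z : Fin M → ℝ) (x : Cf n) (t : ℝ), 0 < t → Sep X d → Nuc n Z →
    (∀ j, Z j ≤ z) → Dist X x →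
    -((C * n + z * (n / (4 * t))) + z * t * ∑ k, near2 X d (x k)) ≤ Vc X Z x := by
  intro z d hz hd
  obtain ⟨C, hC, H⟩ := h1 z d hz hd
  refine ⟨C, hC, ?_⟩
  intro n M X Z x t ht hS hN hZ hx
  have h2 := H n M X Z x hS hN hZ hx
  have h3 := tbl_Dn (d / 8) X Z x
  have h4 := tbl_Rem hK (d / 8) (by positivity) X x hx
  have h5 : ∑ k, near1 X d (x k) ≤ t * (∑ k, near2 X d (x k)) + n / (4 * t) := by
    calc ∑ k, near1 X d (x k) ≤ ∑ k : Fin n, (t * near2 X d (x k) + 1 / (4 * t)) :=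
          Finset.sum_le_sum fun k _ => tbl_near X d t hd ht hS (x k)
      _ = t * (∑ k, near2 X d (x k)) + n / (4 * t) := by
          rw [Finset.sum_add_distrib, Finset.sum_const, Finset.card_univ, Fintype.card_fin,
            nsmul_eq_mul, ← Finset.mul_sum]
          ring
  have h6 := mul_le_mul_of_nonneg_left h5 hz
  nlinarith

/-- the integrated bound -/
theorem tbl_int (h1 : ST_ES1) (h2 : ST_AED) (h3 : ST_HLOC) (h7 : ST_INTM) (hK : ST_KK) :
    ∀ z d : ℝ, 0 ≤ z → 0 < d → ∃ C : ℝ, 0 < C ∧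
    ∀ (n M : ℕ) (X : Fin M → R3) (Z : Fin M → ℝ) (u : Wf n) (t : ℝ), 0 < t → Sep X d → Nuc n Z →
    (∀ j, Z j ≤ z) → Sm u →
    kin u ≤ QM X Z u + nucR X Z * Helper95.PW.sq u + (C * n + z * (n / (4 * t))) * Helper95.PW.sq u +
      z * t * one (near2 X d) u := by
  intro z d hz hd
  obtain ⟨C, hC, H⟩ := tbl_pt h1 hK z d hz hd
  obtain ⟨C2, hC2, H2⟩ := h3
  refine ⟨C, hC, ?_⟩
  intro n M X Z u t ht hS hN hZ hu
  obtain ⟨hint, _⟩ := H2 n M X d u hd hS hu
  have key : ∀ s, -((C * n + z * (n / (4 * t))) * (∫ x, u s x ^ 2) +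
      z * t * ∫ x, (∑ k, near2 X d (x k)) * u s x ^ 2) ≤
      (∫ x, rep x * u s x ^ 2) - (∫ x, (∑ k, pot X Z (x k)) * u s x ^ 2) +
        nucR X Z * ∫ x, u s x ^ 2 := by
    intro s
    obtain ⟨i1, i2, _, _⟩ := h7 n M X Z (u s) (u s) (hu s).1 (hu s).2 (hu s).1 (hu s).2
    have e1 : (fun x : Cf n => (∑ k, pot X Z (x k)) * (u s x * u s x)) =
        fun x : Cf n => (∑ k, pot X Z (x k)) * u s x ^ 2 := by
      funext x; rw [pow_two]
    have e2 : (fun x : Cf n => rep x * (u s x * u s x)) =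
        fun x : Cf n => rep x * u s x ^ 2 := by
      funext x; rw [pow_two]
    rw [e1] at i1
    rw [e2] at i2
    have i3 : Integrable (fun x : Cf n => u s x ^ 2) :=
      (com_memLp _ (hu s).1 (hu s).2).integrable_sq
    have i4 := hint s
    have j1 : Integrable (fun x : Cf n => rep x * u s x ^ 2 -
        (∑ k, pot X Z (x k)) * u s x ^ 2) := i2.sub i1
    have j2 : Integrable (fun x : Cf n => nucR X Z * u s x ^ 2) := i3.const_mul _
    have j3 : Integrable (fun x : Cf n => (C * n + z * (n / (4 * t))) * u s x ^ 2) :=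
      i3.const_mul _
    have j4 : Integrable (fun x : Cf n => z * t * ((∑ k, near2 X d (x k)) * u s x ^ 2)) :=
      i4.const_mul _
    rw [← integral_const_mul, ← integral_const_mul, ← integral_add j3 j4, ← integral_neg,
      ← integral_sub i2 i1, ← integral_const_mul, ← integral_add j1 j2]
    refine integral_mono_ae (j3.add j4).neg (j1.add j2) ?_
    filter_upwards [h2 n M X] with x hx
    have h4 := H n M X Z x t ht hS hN hZ hx
    have h5 := mul_le_mul_of_nonneg_right h4 (sq_nonneg (u s x))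
    unfold Vc at h5
    show -((C * n + z * (n / (4 * t))) * u s x ^ 2 +
      z * t * ((∑ k, near2 X d (x k)) * u s x ^ 2)) ≤
      rep x * u s x ^ 2 - (∑ k, pot X Z (x k)) * u s x ^ 2 + nucR X Z * u s x ^ 2
    linarith
  have hsum := Finset.sum_le_sum fun s (_ : s ∈ Finset.univ) => key s
  rw [Finset.sum_neg_distrib, Finset.sum_add_distrib, Finset.sum_add_distrib,
    Finset.sum_sub_distrib, ← Finset.mul_sum, ← Finset.mul_sum, ← Finset.mul_sum] at hsum
  have e3 : QM X Z u = kin u + pair u - one (pot X Z) u := rfl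
  have e4 : pair u = ∑ s, ∫ x, rep x * u s x ^ 2 := rfl
  have e5 : one (pot X Z) u = ∑ s, ∫ x, (∑ k, pot X Z (x k)) * u s x ^ 2 := rfl
  have e6 : Helper95.PW.sq u = ∑ s, ∫ x, u s x ^ 2 := rfl
  have e7 : one (near2 X d) u = ∑ s, ∫ x, (∑ k, near2 X d (x k)) * u s x ^ 2 := rfl
  rw [← e4, ← e5, ← e6, ← e7] at hsum
  linarith

/-- row TBL -/
theorem TBL (h1 : ST_ES1) (h2 : ST_AED) (h3 : ST_HLOC) (h6 : ST_QHM) (h7 : ST_INTM)
    (h8 : ST_KK) : ST_TBL := by
  intro z d Ce hz hd hCe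
  obtain ⟨C1, hC1, H1⟩ := tbl_int h1 h2 h3 h7 h8 z d hz hd
  obtain ⟨C2, hC2, H2⟩ := h3
  obtain ⟨t, ht⟩ : ∃ t : ℝ, t = 1 / (2 * (z + 1) * C2) := ⟨_, rfl⟩
  have ht0 : 0 < t := by rw [ht]; positivity
  have htz : z * t * C2 ≤ 1 / 2 := by
    calc z * t * C2 = z / (z + 1) * (1 / 2) := by rw [ht]; field_simp
      _ ≤ 1 * (1 / 2) := by
        refine mul_le_mul_of_nonneg_right ?_ (by norm_num)
        rw [div_le_one (by positivity)]
        linarith
      _ = 1 / 2 := by ring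
  refine ⟨2 * (2 * Ce + 1 + 2 * (C1 + z / (4 * t)) + 1 / d ^ 2), by positivity, ?_⟩
  intro n M X Z E u hn hN hZ hS hE hu hsq hres
  have hn1 : (1 : ℝ) ≤ n := by exact_mod_cast hn
  have a1 := H1 n M X Z u t ht0 hS hN hZ hu
  have a2 := innm_Q_le h6 h7 X Z E u hu
  have a3 := (H2 n M X d u hd hS hu).2
  have s0 : 0 ≤ Helper95.PW.sq u := com_sq_nonneg u
  have k0 : 0 ≤ kin u := com_kin_nonneg u
  have b1 : (E + nucR X Z) * Helper95.PW.sq u ≤ Ce * n * 2 :=
    (mul_le_mul_of_nonneg_right hE s0).trans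
      (mul_le_mul_of_nonneg_left hsq (by positivity))
  have b2 : (C1 * n + z * (n / (4 * t))) * Helper95.PW.sq u ≤ (C1 * n + z * (n / (4 * t))) * 2 :=
    mul_le_mul_of_nonneg_left hsq (by positivity)
  have b3 : (n : ℝ) * Helper95.PW.sq u / d ^ 2 ≤ n * 2 / d ^ 2 :=
    div_le_div_of_nonneg_right (mul_le_mul_of_nonneg_left hsq (by positivity)) (by positivity)
  have b4 : z * t * one (near2 X d) u ≤ z * t * (C2 * (kin u + n * 2 / d ^ 2)) := by
    refine mul_le_mul_of_nonneg_left (a3.trans ?_) (by positivity)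
    exact mul_le_mul_of_nonneg_left (by linarith) hC2.le
  have b5 : z * t * (C2 * (kin u + n * 2 / d ^ 2)) ≤ 1 / 2 * (kin u + n * 2 / d ^ 2) := by
    have hk : 0 ≤ kin u + n * 2 / d ^ 2 := by positivity
    calc z * t * (C2 * (kin u + n * 2 / d ^ 2)) = z * t * C2 * (kin u + n * 2 / d ^ 2) := by ring
      _ ≤ 1 / 2 * (kin u + n * 2 / d ^ 2) := mul_le_mul_of_nonneg_right htz hk
  have b6 : z * ((n : ℝ) / (4 * t)) = z / (4 * t) * n := by ring
  have b7 : (n : ℝ) * 2 / d ^ 2 = 2 * (1 / d ^ 2 * n) := by ring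
  rw [b6] at b2 a1
  rw [b7] at b4 b5
  nlinarith

end Pool.Agent.Helper21.LN
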